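import Pool.Agent.U186.ASC.Adic
import Pool.Agent.TH188.QS.LU

/-!
MP_53121e_ag: local uniformization, in arbitrary dimension and over arbitrary fields of
characteristic `p`, of the function fields of the loci where the rank of a matrix drops.

Let `k` be a field of characteristic `p`, let `E` be a function field over `k` (for example,
`E = k`), and let `K` be the function field of an irreducible component of the locus in the affine
space over `E`, with the coordinates `t e`, where the rank of the `a × b` matrix
`M + ∑ e, t e ^ m e • u e ⊗ v e` is less than `b`, with `M`, `u e`, `v e` over `E`, the `m e` prime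
to `p`, and with rank `b` over `E(X)`. Then every valuation ring of `K / k` whose trace on `E` is log
uniformizable (on an affine model of `E`) has a regular centre on a projective model of `K`. In
particular, for `E = k`, the function field `K` admits local uniformization, and so it does, by
Cossart and Piltant, for `E` of transcendence degree at most `3` over `k`.

Examples: all irreducible components of graph and configuration hypersurfaces
`det (M + ∑ e, t e • u e ⊗ v e) = 0`, of determinantal varieties of sparse generic matrices with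
linear relations of rank one, and their coverings `t e ↦ t e ^ m e`.

The proof: `Pool.Agent.U186.RD.drop_stage` (the library of `MP_5b7a2c_ag.RankDropAscent` and
`MP_1a953e_ag.RankDropAdicPoints`) for the affine model which is generated by the base model, and
by the `t e` and `w j` or their inverses, where `w` is a kernel vector of the matrix. Over perfect
fields the local form, for the incidence variety, is `MP_3029eb_ag.RankDropLociLU`.

helper186.
-/

set_option autoImplicit false

universe u

namespace Pool.Agent.Results.MP_53121e_ag.RankDropFields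

open Pool.Agent.W418.LU2 Pool.Agent.TH188.QS

/-- The coordinate ring `k[H l / H j : l]` of the chart `j` of the projective model of `K` with the
homogeneous coordinates `H`. -/
def modelChart (k : Type u) {K : Type u} [Field k] [Field K] [Algebra k K] {N : ℕ} (H : Fin N → K)
    (j : Fin N) : Subalgebra k K :=
  Algebra.adjoin k (Set.range fun l => H l / H j)

/-- The function field `K` of `k` has a projective model (with homogeneous coordinates `H`) on
which the centre of the valuation ring `V` is a regular point. The chart `j` contains the centre of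
`V`, and `P` is the ideal of the centre. -/
def IsUniformizable (k : Type u) {K : Type u} [Field k] [Field K] [Algebra k K]
    (V : ValuationSubring K) : Prop :=
  ∃ (N : ℕ) (H : Fin N → K) (j : Fin N), H j ≠ 0 ∧ (∀ l, H l / H j ∈ V) ∧
    (∀ z : K, ∃ a ∈ modelChart k H j, ∃ b ∈ modelChart k H j, b ≠ 0 ∧ z = a / b) ∧
    ∃ P : Ideal (modelChart k H j), ∃ (_ : P.IsPrime),
      (∀ b : modelChart k H j, b ∈ P ↔ V.valuation (b : K) < 1) ∧
        IsRegularLocalRing (Localization.AtPrime P)

/-- The local ring of `Spec B` at the centre of the valuation ring `V`: the fractions of elements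
of `B` whose denominators are units of `V`. -/
def centreRing {F : Type u} [Field F] (V : ValuationSubring F) (B : Subring F) : Subring F where
  carrier := {x | ∃ a ∈ B, ∃ b ∈ B, b ≠ 0 ∧ b⁻¹ ∈ V ∧ x = a * b⁻¹}
  mul_mem' := (lo V.toSubring B).mul_mem'
  one_mem' := (lo V.toSubring B).one_mem'
  add_mem' := (lo V.toSubring B).add_mem'
  zero_mem' := (lo V.toSubring B).zero_mem'
  neg_mem' := (lo V.toSubring B).neg_mem'

/-- The chart `A[I / f]` of the blowing-up of `Spec A` in the ideal `I`. -/
def blowUpChart {F : Type u} [Field F] (A : Subring F) (I : Ideal A) (f : A) : Subring F :=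
  Subring.closure ((A : Set F) ∪ {z | ∃ a ∈ I, z = (a : F) / (f : F)})

/-- `P` is a regular local ring and the zero set of `J` is a divisor with strict normal
crossings: the radical of `J` is generated by the product of some of the elements of a regular
system of parameters. -/
def RegularPair (P : Type u) [CommRing P] (J : Ideal P) : Prop :=
  ∃ (_ : IsRegularLocalRing P) (n : ℕ) (x : Fin n → P) (s : Finset (Fin n)),
    Ideal.span (Set.range x) = IsLocalRing.maximalIdeal P ∧ ringKrullDim P = n ∧
      J.radical = Ideal.span {∏ i ∈ s, x i}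

/-- The blowing-up of `X = Spec A` in `V(I)` is a log desingularization of `(X, V(D))` along the
valuation ring `V`. Here `f ∈ I` generates `I V`, the centre of the lift of the valuation lies in
the chart `Spec A[I / f]`, and the ideal `D I` defines the preimage of `V(D) ∪ V(I)`. -/
def IsLogDesingularization {F : Type u} [Field F] (V : ValuationSubring F) (A : Subring F)
    (D I : Ideal A) : Prop :=
  ∃ f ∈ I, f ≠ 0 ∧ (∀ a ∈ I, (a : F) / (f : F) ∈ V) ∧
    RegularPair (centreRing V (blowUpChart A I f))
      (Ideal.span {z | ∃ a ∈ D * I, (z : F) = (a : F)})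

/-- The valuation ring `V` is log uniformizable on `Spec A`. (The blowings-up in the ideals
`I₀ * I₁` are cofinal: the blowing-up in `I₀ * I₁` factors through the blowing-up in `I₀`.) -/
def IsLogUniformizable {F : Type u} [Field F] (V : ValuationSubring F) (A : Subring F) : Prop :=
  ∀ D I₀ : Ideal A, D ≠ ⊥ → I₀ ≠ ⊥ →
    ∃ I₁ : Ideal A, I₁ ≠ ⊥ ∧ IsLogDesingularization V A D (I₀ * I₁)

/-- The `a × b` matrix `M + ∑ e, x e • u e ⊗ v e` over the `E`-algebra `S`. -/
noncomputable def pencil {E S : Type u} [CommRing E] [CommRing S] [Algebra E S] {a b N : ℕ}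
    (M : Matrix (Fin a) (Fin b) E) (u : Fin N → Fin a → E) (v : Fin N → Fin b → E)
    (x : Fin N → S) : Matrix (Fin a) (Fin b) S :=
  Matrix.of fun i j => algebraMap E S (M i j) + ∑ e, x e * algebraMap E S (u e i * v e j)

/-- The ideal generated by the minors of size `b` of an `a × b` matrix. Its zeros are the points at
which the rank is less than `b`. -/
noncomputable def columnMinors {S : Type u} [CommRing S] {a b : ℕ}
    (B : Matrix (Fin a) (Fin b) S) : Ideal S :=
  Ideal.span (Set.range fun f : Fin b → Fin a => (B.submatrix f id).det)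

/-- `K` is the function field of an irreducible component of the closed subset of the affine space
over `E` at which the rank of the matrix `M + ∑ e, X e ^ m e • u e ⊗ v e` (whose rank over
`E[X 0, ..., X (N - 1)]` is `b`) is less than `b`, and `t e ∈ K` are the coordinate functions; `w` is
a vector over `K`, with a coordinate one, in the kernel of `M + ∑ e, t e ^ m e • u e ⊗ v e`. -/
def IsRankDropField {E K : Type u} [Field E] [Field K] [Algebra E K] {a b N : ℕ}
    (M : Matrix (Fin a) (Fin b) E) (u : Fin N → Fin a → E) (v : Fin N → Fin b → E)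
    (m : Fin N → ℕ) (t : Fin N → K) (w : Fin b → K) : Prop :=
  columnMinors (pencil M u v fun e => (MvPolynomial.X e : MvPolynomial (Fin N) E) ^ m e) ≠ ⊥ ∧
  (∃ P ∈ (columnMinors (pencil M u v
      fun e => (MvPolynomial.X e : MvPolynomial (Fin N) E) ^ m e)).minimalPrimes,
    ∀ F : MvPolynomial (Fin N) E, F ∈ P ↔ MvPolynomial.aeval t F = (0 : K)) ∧
  IntermediateField.adjoin E (Set.range t) = ⊤ ∧
  (∃ i, w i = 1) ∧ (pencil M u v fun e => t e ^ m e).mulVec w = 0

/-- Let `k` be a field of characteristic `p`, `E` an extension field of `k`, and `R ⊆ V` a finitely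
generated `k`-algebra with fraction field `E`. Let `K` be the function field of a component of the
locus over `E` at which the rank of the matrix `M + ∑ e, t e ^ m e • u e ⊗ v e` is less than its
number `b` of columns (`IsRankDropField`), with the `m e` prime to `p`. Let `V` be a valuation ring
of `K` which contains `R`, such that `R` is a Dedekind ring or a field (for example, `R = E = k`) or
`V ∩ E` is log uniformizable on `Spec R`. Then `K` has a projective model over `k` on which the
centre of `V` is a regular point. -/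
theorem result {p : ℕ} [Fact p.Prime] {k E K : Type u} [Field k] [CharP k p] [Field E] [Field K]
    [Algebra k E] [Algebra k K] [Algebra E K] [IsScalarTower k E K] (V : ValuationSubring K)
    (R : Subalgebra k E) (hRf : R.FG) (hfr : ∀ z : E, ∃ a ∈ R, ∃ b ∈ R, b ≠ 0 ∧ z = a * b⁻¹)
    (hRV : ∀ a ∈ R, algebraMap E K a ∈ V)
    (hR : IsDedekindDomain R.toSubring ∨
      IsLogUniformizable (V.comap (algebraMap E K)) R.toSubring)
    {a b N : ℕ} (M : Matrix (Fin a) (Fin b) E) (u : Fin N → Fin a → E) (v : Fin N → Fin b → E)
    (m : Fin N → ℕ) (hm : ∀ e, ¬ p ∣ m e) (t : Fin N → K) (w : Fin b → K)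
    (hK : IsRankDropField M u v m t w) :
    IsUniformizable k V := by
  classical
  obtain ⟨hI, ⟨P, hPm, hPt⟩, hgen, ⟨i₀, hwi⟩, hw⟩ := hK
  have hkV : ∀ a : k, algebraMap k K a ∈ V := by
    intro a
    rw [IsScalarTower.algebraMap_apply k E K]
    exact hRV _ (R.algebraMap_mem a)
  have hpV : V.valuation (p : K) < 1 := by
    have : CharP K p := charP_of_injective_algebraMap (algebraMap k K).injective p
    rw [CharP.cast_eq_zero K p, map_zero]
    exact zero_lt_one
  obtain ⟨U, hU⟩ := hRf
  have hRU : R.toSubring = Subring.closure (((algebraMap k E).range : Set E) ∪ (U : Set E)) := by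
    rw [← hU, Algebra.adjoin_eq_ring_closure]
    rfl
  have hRN : IsNoetherianRing R.toSubring := by
    have h1 : Algebra.FiniteType k R := R.fg_iff_finiteType.1 ⟨U, hU⟩
    exact Algebra.FiniteType.isNoetherianRing k R
  have hRW : R.toSubring ≤ (V.comap (algebraMap E K)).toSubring := fun a ha => hRV a ha
  have hLU : LogUnif (V.comap (algebraMap E K)) R.toSubring := by
    rcases hR with hR | hR
    · exact logUnif_of_dedekind _ R.toSubring hRW hfr
    · exact hR
  -- the affine model
  let f : K → K := fun s => if s ∈ V then s else s⁻¹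
  have hf1 : ∀ s, s ∈ V → f s = s := fun s hs => if_pos hs
  have hf2 : ∀ s, s ∉ V → f s = s⁻¹ := fun s hs => if_neg hs
  have hfV : ∀ s, f s ∈ V := by
    intro s
    by_cases hs : s ∈ V
    · rw [hf1 s hs]; exact hs
    · rw [hf2 s hs]; exact (V.mem_or_inv_mem s).resolve_left hs
  set S : Set K := insert 1 ((algebraMap E K '' (U : Set E)) ∪
    (f '' (Set.range t ∪ Set.range w))) with hS
  have hSf : S.Finite := by
    refine Set.Finite.insert _ (((U.finite_toSet).image _).union (Set.Finite.image _ ?_))
    exact (Set.finite_range t).union (Set.finite_range w)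
  set A : Subring K := Subring.closure (((algebraMap k K).range : Set K) ∪ S) with hA
  have hSV : ∀ s ∈ S, s ∈ V := by
    rintro s (rfl | ⟨a, ha, rfl⟩ | ⟨a, ha, rfl⟩)
    · exact V.one_mem
    · exact hRV a (hU ▸ Algebra.subset_adjoin ha)
    · exact hfV a
  have h1S : (1 : K) ∈ S := Or.inl rfl
  have hSA : ∀ s ∈ S, s ∈ A := fun s hs => Subring.subset_closure (Or.inr hs)
  have hch : Pool.Agent.H176.DT.ch (algebraMap k K).range S 1 = A := by
    apply le_antisymm
    · refine Subring.closure_le.2 ?_
      rintro z (hz | ⟨g, hg, rfl⟩)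
      · exact Subring.subset_closure (Or.inl hz)
      · simp only [div_one]
        exact hSA g hg
    · rw [hA, Subring.closure_le]
      rintro z (hz | hz)
      · exact Subring.subset_closure (Or.inl hz)
      · exact Subring.subset_closure (Or.inr ⟨z, hz, by simp⟩)
  have hmt : ∀ x : K, x ∈ Set.range t ∪ Set.range w → ∀ hx : x ≠ 0,
      Units.mk0 x hx ∈ Pool.Agent.U186.RD.mons v t m w := by
    rintro x (⟨e, rfl⟩ | ⟨j, rfl⟩) hx
    · exact Subgroup.subset_closure (Or.inr (Or.inr ⟨e, rfl⟩))
    · exact Subgroup.subset_closure (Or.inr (Or.inl (Submodule.subset_span ⟨Sum.inl j, rfl⟩)))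
  have hfm : ∀ x : K, x ∈ Set.range t ∪ Set.range w → f x ≠ 0 →
      ∃ z ∈ Pool.Agent.U186.RD.mons v t m w, (z : K) = f x := by
    intro x hx h0
    by_cases hxV : x ∈ V
    · rw [hf1 x hxV] at h0 ⊢
      exact ⟨_, hmt x hx h0, rfl⟩
    · have hx0 : x ≠ 0 := fun h => hxV (h ▸ V.zero_mem)
      rw [hf2 x hxV] at h0 ⊢
      exact ⟨_, Subgroup.inv_mem _ (hmt x hx hx0), by simp⟩
  have hSm : ∀ g ∈ S, g ≠ 0 → ∃ z ∈ Pool.Agent.U186.RD.mons v t m w, (z : K) = g := by
    rintro g (rfl | ⟨a, ha, rfl⟩ | ⟨x, hx, rfl⟩) h0
    · exact ⟨1, Subgroup.one_mem _, rfl⟩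
    · exact ⟨Units.mk0 _ h0, Subgroup.subset_closure (Or.inl ⟨a, rfl⟩), rfl⟩
    · exact hfm x hx h0
  have hden : ∀ x : K, x ∈ Set.range t ∪ Set.range w →
      ∃ c ∈ A, (∃ z ∈ Pool.Agent.U186.RD.mons v t m w, (z : K) = c) ∧ c * x ∈ A := by
    intro x hx
    have h1 : f x ∈ A := hSA _ (Or.inr (Or.inr ⟨x, hx, rfl⟩))
    by_cases hxV : x ∈ V
    · rw [hf1 x hxV] at h1
      exact ⟨1, A.one_mem, ⟨1, Subgroup.one_mem _, rfl⟩, by rw [one_mul]; exact h1⟩
    · have hx0 : x ≠ 0 := fun h => hxV (h ▸ V.zero_mem)
      rw [hf2 x hxV] at h1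
      refine ⟨x⁻¹, h1, ?_, by rw [inv_mul_cancel₀ hx0]; exact A.one_mem⟩
      exact ⟨_, Subgroup.inv_mem _ (hmt x hx hx0), by simp⟩
  have hOR : (algebraMap k K).range ≤ R.toSubring.map (algebraMap E K) := by
    rintro _ ⟨c, rfl⟩
    exact ⟨algebraMap k E c, R.algebraMap_mem c, (IsScalarTower.algebraMap_apply k E K c).symm⟩
  have hRA : R.toSubring.map (algebraMap E K) ≤ A := by
    rw [hRU, RingHom.map_closure, Subring.closure_le]
    rintro _ ⟨z, (⟨c, rfl⟩ | hz), rfl⟩
    · exact Subring.subset_closure (Or.inl ⟨c, IsScalarTower.algebraMap_apply k E K c⟩)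
    · exact hSA _ (Or.inr (Or.inl ⟨z, hz, rfl⟩))
  obtain ⟨hMod, T', n', X, hSt, -⟩ := Pool.Agent.U186.RD.drop_stage V p hpV (algebraMap k K).range
    (by rintro _ ⟨c, rfl⟩; exact hkV c) R.toSubring hfr hLU M u v m hm hI P hPm t hgen hPt w i₀ hwi
    hw hSf h1S one_ne_zero (fun g hg => by rw [div_one]; exact hSV g hg) hSm hOR
    (by rw [hch]; exact hRA) (fun e => by rw [hch]; exact hden _ (Or.inl ⟨e, rfl⟩))
    (fun j => by rw [hch]; exact hden _ (Or.inr ⟨j, rfl⟩)) 1 (Subring.one_mem _) one_ne_zero
  rw [hch] at hMod hSt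
  have hfrS : ∀ z : K, ∃ a ∈ A, ∃ b ∈ A, b ≠ 0 ∧ z = a / b := by
    intro z
    obtain ⟨a, ha, b, hb, hb0, hz⟩ := hMod.2 z
    exact ⟨a, ha, b, hb, hb0, by rw [hz, div_eq_mul_inv]⟩
  have hT'f : T'.Finite := hSt.fin
  have hT'V : Subring.closure ((A : Set K) ∪ T') ≤ V.toSubring := by
    refine le_trans ?_ hSt.reg.PA
    intro z hz
    exact ⟨z, hz, 1, Subring.one_mem _, one_ne_zero, by rw [inv_one]; exact V.one_mem,
      by rw [inv_one, mul_one]⟩
  have hreg : IsRegularLocalRing (lo V.toSubring (Subring.closure ((A : Set K) ∪ T'))) :=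
    hSt.reg.reg
  -- homogeneous coordinates
  obtain ⟨N, t, ht⟩ := exists_fin_range (hSf.union hT'f)
  let H : Fin (N + 1) → K := Fin.cons 1 t
  have hH0 : H 0 = 1 := rfl
  have hHs : ∀ i : Fin N, H i.succ = t i := fun i => rfl
  have hHr : Set.range (fun l => H l / H 0) = insert 1 (S ∪ T') := by
    rw [← ht]
    ext z
    simp only [hH0, div_one]
    constructor
    · rintro ⟨l, rfl⟩
      induction l using Fin.cases with
      | zero => exact Or.inl rfl
      | succ i => exact Or.inr ⟨i, rfl⟩
    · rintro (rfl | ⟨i, rfl⟩)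
      · exact ⟨0, rfl⟩
      · exact ⟨i.succ, rfl⟩
  have hcl : Subring.closure ((((algebraMap k K).range : Subring K) : Set K) ∪
      insert 1 (S ∪ T')) = Subring.closure ((A : Set K) ∪ T') := by
    apply le_antisymm
    · rw [Subring.closure_le]
      rintro z (hz | rfl | hz | hz)
      · exact Subring.subset_closure (Or.inl (Subring.subset_closure (Or.inl hz)))
      · exact Subring.one_mem _
      · exact Subring.subset_closure (Or.inl (Subring.subset_closure (Or.inr hz)))
      · exact Subring.subset_closure (Or.inr hz)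
    · rw [Subring.closure_le]
      rintro z (hz | hz)
      · refine (Subring.closure_mono ?_) hz
        rintro w (hw | hw)
        · exact Or.inl hw
        · exact Or.inr (Or.inr (Or.inl hw))
      · exact Subring.subset_closure (Or.inr (Or.inr (Or.inr hz)))
  have hVcl : Subring.closure ((((algebraMap k K).range : Subring K) : Set K) ∪
      insert 1 (S ∪ T')) ≤ V.toSubring := by
    rw [hcl]
    exact hT'V
  have hch : (modelChart k H 0).toSubring = Subring.closure ((A : Set K) ∪ T') := by
    unfold modelChart
    rw [adjoin_toSubring, hHr, hcl]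
  obtain ⟨h3, P, hP, h4, h5⟩ := regular_centre (R := k) (T := Set.range fun l => H l / H 0)
    (V := V) (by rw [hHr]; exact hVcl) (by rw [hHr, hcl]; exact hreg)
  refine ⟨N + 1, H, 0, by rw [hH0]; exact one_ne_zero, ?_, ?_, P, hP, h4, h5⟩
  · intro l
    exact h3 ⟨H l / H 0, Algebra.subset_adjoin ⟨l, rfl⟩⟩
  · intro z
    obtain ⟨a, ha, b, hb, hb0, hz⟩ := hfrS z
    have hle : A ≤ (modelChart k H 0).toSubring := by
      rw [hch]
      exact fun x hx => Subring.subset_closure (Or.inl hx)
    exact ⟨a, hle ha, b, hle hb, hb0, hz⟩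

end Pool.Agent.Results.MP_53121e_ag.RankDropFields
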